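import Mathlib
import Pool.Agent.U831.HY.Main
import Pool.Agent.TH957.PB.Alt

/-!
# The multiples of Catalan's constant modulo one and forms in it and `π³ + 12 ζ(3)` or `π³ - 12 ζ(3)`

Let `G` be Catalan's constant, `ε = 1` or `ε = -1`, `w` a rational number and

  `A = 8 G + w π²`, `B = π³ + 12 ε ζ(3) + 18 w ζ(3)`;

for `w = 0` these are `8 G` and `π³ + 12 ε ζ(3)`. Let `0 < κ`, `0 ≤ η`, `M ≥ 1`,
`4000 M (κ + η) < 1`.

* For every large `X` there is ONE line of `ℚ²` such that at all scales `N` between `X` and `X ^ M`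
  and for all integer forms `a A + b B` of height at most `N ^ η` outside the line the multiples
  `n (a A + b B) + γ`, `n < N`, are equidistributed modulo one with an error at most `N ^ (1 - κ)` in
  all intervals, for all real `γ`.
* For every large `X` this holds, at all scales between `X` and `X ^ M`, either for all the multiples
  `a A`, `0 < |a| ≤ N ^ η`, or for all forms with `b ≠ 0`.
* If `A` is rational (for `w = 0`: if `G` is rational), it holds for all forms with `b ≠ 0` at all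
  large `N`.

The proof: a form with a larger error is close to a fraction with a denominator at most `20 N ^ κ`;
two linearly independent such forms, also at different scales, would give (Cramer's rule,
`Pool.Agent.U831.HY`) simultaneous approximations which contradict the measure of the pencil of the
starting library (`Pool.Agent.TH957.PB.pencil`, exponent `1999`).
-/

set_option autoImplicit false

namespace Pool.Agent.Results.MP_631c0d_nt.LineOfForms

open Finset Filter Topology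

/-- `ζ(3) = ∑ 1 / (j+1)^3` -/
noncomputable def zeta3 : ℝ := ∑' j : ℕ, 1 / ((j : ℝ) + 1) ^ 3

/-- Catalan's constant `∑ (-1)^j / (2j+1)^2` -/
noncomputable def G : ℝ := ∑' j : ℕ, (-1 : ℝ) ^ j / (2 * (j : ℝ) + 1) ^ 2

/-- the number `8 G + w π²` -/
noncomputable def A (w : ℚ) : ℝ := 8 * G + w * Real.pi ^ 2

/-- the number `π³ + 12 ε ζ(3) + 18 w ζ(3)` -/
noncomputable def B (w : ℚ) (ε : ℤ) : ℝ := Real.pi ^ 3 + 12 * ε * zeta3 + 18 * w * zeta3

/-- the number of `n < N` with the fractional part of `n θ + γ` in `[u, v)` -/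
noncomputable def count (θ γ u v : ℝ) (N : ℕ) : ℕ :=
  ((range N).filter fun n : ℕ => u ≤ Int.fract (n * θ + γ) ∧ Int.fract (n * θ + γ) < v).card

/-- the multiples `n θ + γ`, `n < N`, are equidistributed modulo one with an error at most
`N ^ (1 - κ)` in all intervals, for all real shifts `γ` -/
def Saving (κ θ : ℝ) (N : ℕ) : Prop :=
  ∀ γ u v : ℝ, 0 ≤ u → u ≤ v → v ≤ 1 →
    |(count θ γ u v N : ℝ) - (v - u) * N| ≤ (N : ℝ) ^ (1 - κ)

/-- the multiples of a fraction are not equidistributed with a power saving -/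
lemma not_saving (p : ℤ) (q : ℕ) (hq : 0 < q) (κ : ℝ) (hκ : 0 < κ) :
    ∀ᶠ N : ℕ in atTop, ¬ Saving κ ((p : ℝ) / q) N := by
  have hq0 : (0 : ℝ) < q := by exact_mod_cast hq
  have hq1 : (1 : ℝ) ≤ q := by exact_mod_cast hq
  have h1 : Tendsto (fun N : ℕ => (N : ℝ) ^ (-κ)) atTop (𝓝 0) :=
    (tendsto_rpow_neg_atTop hκ).comp tendsto_natCast_atTop_atTop
  have h2 : ∀ᶠ N : ℕ in atTop, (N : ℝ) ^ (-κ) < 1 / (3 * q) :=
    h1.eventually (gt_mem_nhds (by positivity))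
  filter_upwards [h2, eventually_gt_atTop 0] with N hN hN0 hS
  have hN0' : (0 : ℝ) < N := by exact_mod_cast hN0
  have h3 := hS 0 (1 / (3 * q)) (2 / (3 * q)) (by positivity)
    (div_le_div_of_nonneg_right (by norm_num) (by positivity)) (by
      rw [div_le_one (by positivity)]
      linarith)
  have h4 : count ((p : ℝ) / q) 0 (1 / (3 * q)) (2 / (3 * q)) N = 0 := by
    unfold count
    rw [card_eq_zero, filter_eq_empty_iff]
    rintro n - ⟨ha, hb⟩
    set f : ℝ := Int.fract ((n : ℝ) * ((p : ℝ) / q) + 0) with hf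
    have h5 : (q : ℝ) * f = ((n * p - q * ⌊(n : ℝ) * ((p : ℝ) / q) + 0⌋ : ℤ) : ℝ) := by
      rw [hf, Int.fract]
      push_cast
      field_simp
      ring
    have h6 : (0 : ℝ) < (q : ℝ) * f := by
      have : 0 < f := lt_of_lt_of_le (by positivity) ha
      positivity
    have h7 : (q : ℝ) * f < 1 := by
      have h8 : (q : ℝ) * f < q * (2 / (3 * q)) := mul_lt_mul_of_pos_left hb hq0
      have h9 : (q : ℝ) * (2 / (3 * q)) = 2 / 3 := by field_simp
      linarith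
    rw [h5] at h6 h7
    have h10 : (0 : ℤ) < n * p - q * ⌊(n : ℝ) * ((p : ℝ) / q) + 0⌋ := by exact_mod_cast h6
    have h11 : (n * p - q * ⌊(n : ℝ) * ((p : ℝ) / q) + 0⌋ : ℤ) < 1 := by exact_mod_cast h7
    omega
  rw [h4] at h3
  have h5 : ((2 : ℝ) / (3 * q) - 1 / (3 * q)) * N = 1 / (3 * q) * N := by ring
  rw [h5] at h3
  have h6 : (N : ℝ) ^ (1 - κ) = (N : ℝ) ^ (-κ) * N := by
    rw [sub_eq_add_neg, add_comm, Real.rpow_add hN0', Real.rpow_one]
  rw [h6] at h3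
  have h7 : |((0 : ℕ) : ℝ) - 1 / (3 * q) * N| = 1 / (3 * q) * N := by
    rw [Nat.cast_zero, zero_sub, abs_neg, abs_of_nonneg (by positivity)]
  rw [h7] at h3
  have h8 := mul_lt_mul_of_pos_right hN hN0'
  linarith

/-- the pair measure -/
lemma pair (w : ℚ) (ε : ℤ) (hε : ε = 1 ∨ ε = -1) :
    ∃ c : ℝ, 0 < c ∧ ∀ (a : Fin 2 → ℤ) (q : ℕ), 0 < q →
      ∃ i, c / (q : ℝ) ^ 2000 ≤ |(![A w, B w ε] : Fin 2 → ℝ) i - (a i : ℝ) / q| := by
  obtain ⟨c, hc, h⟩ := Pool.Agent.TH957.PB.pencil (ε : ℝ) (by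
    rcases hε with rfl | rfl
    · left; norm_num
    · right; norm_num)
  have hv : (0 : ℝ) < w.den := by exact_mod_cast w.den_pos
  have hv1 : (1 : ℝ) ≤ w.den := by exact_mod_cast w.den_pos
  have hw : (w : ℝ) = (w.num : ℝ) / w.den := by exact_mod_cast (Rat.num_div_den w).symm
  obtain ⟨T, hT⟩ : ∃ T : ℝ, T = |(w.num : ℝ)| + w.den := ⟨_, rfl⟩
  have hT0 : 0 < T := by
    rw [hT]
    positivity
  have hT1 : (w.den : ℝ) ≤ T := by
    rw [hT]
    linarith [abs_nonneg (w.num : ℝ)]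
  have hT2 : |(w.num : ℝ)| ≤ T := by
    rw [hT]
    linarith
  refine ⟨c / T ^ 1999 / w.den, by positivity, fun a q hq => ?_⟩
  have hq0 : (0 : ℝ) < q := by exact_mod_cast hq
  have h1 := h (w.den * q) (w.num * q) (w.den * a 0) (w.den * a 1)
    (mul_ne_zero (by exact_mod_cast w.den_pos.ne') (by exact_mod_cast hq.ne')) (T * q) (by
      push_cast
      rw [abs_of_pos (by positivity)]
      exact mul_le_mul_of_nonneg_right hT1 hq0.le) (by
      push_cast
      rw [abs_mul, abs_of_pos hq0]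
      exact mul_le_mul_of_nonneg_right hT2 hq0.le)
  have e0 : c * (T * q) ^ (-(1999 : ℝ)) = w.den * q * (c / T ^ 1999 / w.den / (q : ℝ) ^ 2000) := by
    rw [Real.rpow_neg (by positivity), show (1999 : ℝ) = ((1999 : ℕ) : ℝ) by norm_num,
      Real.rpow_natCast, mul_pow, show (2000 : ℕ) = 1999 + 1 by norm_num, pow_succ (q : ℝ) 1999]
    field_simp
  have e1 : 8 * ((w.den * q : ℤ) : ℝ) * Pool.Agent.W34.GB.GC +
      ((w.num * q : ℤ) : ℝ) * Real.pi ^ 2 - ((w.den * a 0 : ℤ) : ℝ) =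
      w.den * q * (A w - a 0 / q) := by
    have : Pool.Agent.W34.GB.GC = G := rfl
    rw [this, A, hw]
    push_cast
    field_simp
  have e2 : ((w.den * q : ℤ) : ℝ) * (Real.pi ^ 3 + 12 * ε * Pool.Agent.W34.GB.Z3) +
      18 * ((w.num * q : ℤ) : ℝ) * Pool.Agent.W34.GB.Z3 - ((w.den * a 1 : ℤ) : ℝ) =
      w.den * q * (B w ε - a 1 / q) := by
    have : Pool.Agent.W34.GB.Z3 = zeta3 := rfl
    rw [this, B, hw]
    push_cast
    field_simp
  have hp : (0 : ℝ) < w.den * q := by positivity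
  rw [e0, e1, e2, abs_mul ((w.den : ℝ) * q) (A w - a 0 / q),
    abs_mul ((w.den : ℝ) * q) (B w ε - a 1 / q), abs_of_pos hp] at h1
  rcases le_max_iff.1 h1 with h3 | h3
  · exact ⟨0, le_of_mul_le_mul_left h3 hp⟩
  · exact ⟨1, le_of_mul_le_mul_left h3 hp⟩

/-- **One line of exceptional forms for Catalan's constant.** -/
theorem result : ∀ (w : ℚ) (ε : ℤ), ε = 1 ∨ ε = -1 →
    ∀ κ η M : ℝ, 0 < κ → 0 ≤ η → 1 ≤ M → 4000 * M * (κ + η) < 1 →
      -- (1) all exceptional forms between `X` and `X ^ M` are on one line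
      (∃ X₀ : ℝ, ∀ X : ℝ, X₀ ≤ X → ∃ t : Fin 2 → ℚ, t ≠ 0 ∧
        ∀ N : ℕ, X ≤ N → (N : ℝ) ≤ X ^ M → ∀ a b : ℤ, |(a : ℝ)| ≤ (N : ℝ) ^ η →
          |(b : ℝ)| ≤ (N : ℝ) ^ η → t 0 * a + t 1 * b ≠ 0 → Saving κ (a * A w + b * B w ε) N) ∧
      -- (2) the alternative for the multiples of `8 G + w π²`
      (∃ X₀ : ℝ, ∀ X : ℝ, X₀ ≤ X →
        (∀ N : ℕ, X ≤ N → (N : ℝ) ≤ X ^ M → ∀ a : ℤ, a ≠ 0 → |(a : ℝ)| ≤ (N : ℝ) ^ η →
          Saving κ (a * A w) N) ∨
        (∀ N : ℕ, X ≤ N → (N : ℝ) ≤ X ^ M → ∀ a b : ℤ, |(a : ℝ)| ≤ (N : ℝ) ^ η → b ≠ 0 →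
          |(b : ℝ)| ≤ (N : ℝ) ^ η → Saving κ (a * A w + b * B w ε) N)) ∧
      -- (3) if `8 G + w π²` is rational
      ((∃ r : ℚ, A w = r) → ∃ N₀ : ℕ, ∀ N : ℕ, N₀ ≤ N → ∀ a b : ℤ,
        |(a : ℝ)| ≤ (N : ℝ) ^ η → b ≠ 0 → |(b : ℝ)| ≤ (N : ℝ) ^ η →
          Saving κ (a * A w + b * B w ε) N) := by
  intro w ε hε κ η M hκ hη hM h
  have hk : κ < 1 / 2 := by
    have h1 : 0 ≤ M * η := by positivity
    nlinarith
  obtain ⟨c, hc, hm⟩ := pair w ε hε
  have P1 : ∃ X₀ : ℝ, ∀ X : ℝ, X₀ ≤ X → ∃ t : Fin 2 → ℚ, t ≠ 0 ∧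
      ∀ N : ℕ, X ≤ N → (N : ℝ) ≤ X ^ M → ∀ a b : ℤ, |(a : ℝ)| ≤ (N : ℝ) ^ η →
        |(b : ℝ)| ≤ (N : ℝ) ^ η → t 0 * a + t 1 * b ≠ 0 → Saving κ (a * A w + b * B w ε) N := by
    obtain ⟨X₀, hX₀⟩ := Pool.Agent.U831.HY.hyper ![A w, B w ε] 2000 (by norm_num) c hc hm κ η M
      hκ hη hk hM (by
        have : ((2000 : ℕ) : ℝ) * ((2 : ℕ) : ℝ) * M * (κ + η) = 4000 * M * (κ + η) := by
          norm_num
        rw [this]
        exact h)
    refine ⟨max X₀ 1, fun X hX => ?_⟩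
    obtain ⟨t, ht, hN⟩ := hX₀ X ((le_max_left _ _).trans hX)
    refine ⟨t, ht, fun N h1 h2 a b ha hb hab γ u v hu huv hv => ?_⟩
    have h3 := hN N h1 h2 ![a, b] (fun i => by
      fin_cases i
      · exact ha
      · exact hb) (by
        rw [Fin.sum_univ_two]
        exact hab) γ u v hu huv hv
    rw [Fin.sum_univ_two] at h3
    have hN0 : (0 : ℝ) < N := by
      have := (le_max_right X₀ 1).trans hX
      linarith
    have h4 : (N : ℝ) ^ (-κ) * N = (N : ℝ) ^ (1 - κ) := by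
      rw [sub_eq_add_neg, add_comm, Real.rpow_add hN0, Real.rpow_one]
    rw [h4] at h3
    exact h3
  have P2 : ∃ X₀ : ℝ, ∀ X : ℝ, X₀ ≤ X →
      (∀ N : ℕ, X ≤ N → (N : ℝ) ≤ X ^ M → ∀ a : ℤ, a ≠ 0 → |(a : ℝ)| ≤ (N : ℝ) ^ η →
        Saving κ (a * A w) N) ∨
      (∀ N : ℕ, X ≤ N → (N : ℝ) ≤ X ^ M → ∀ a b : ℤ, |(a : ℝ)| ≤ (N : ℝ) ^ η → b ≠ 0 →
        |(b : ℝ)| ≤ (N : ℝ) ^ η → Saving κ (a * A w + b * B w ε) N) := by
    obtain ⟨X₀, hX₀⟩ := P1
    refine ⟨X₀, fun X hX => ?_⟩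
    obtain ⟨t, ht, hN⟩ := hX₀ X hX
    by_cases h0 : t 0 = 0
    · right
      intro N h1 h2 a b ha hb hb2
      have h1' : t 1 ≠ 0 := by
        intro h1
        apply ht
        funext i
        fin_cases i
        · exact h0
        · exact h1
      refine hN N h1 h2 a b ha hb2 ?_
      rw [h0, zero_mul, zero_add]
      exact mul_ne_zero h1' (by exact_mod_cast hb)
    · left
      intro N h1 h2 a ha ha2
      have h3 := hN N h1 h2 a 0 ha2 (by
        rw [Int.cast_zero, abs_zero]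
        positivity) (by
        rw [Int.cast_zero, mul_zero, add_zero]
        exact mul_ne_zero h0 (by exact_mod_cast ha))
      rw [Int.cast_zero, zero_mul, add_zero] at h3
      exact h3
  refine ⟨P1, P2, ?_⟩
  rintro ⟨r, hr⟩
  obtain ⟨X₀, hX₀⟩ := P2
  obtain ⟨N₁, hN₁⟩ := eventually_atTop.1 (not_saving r.num r.den r.pos κ hκ)
  refine ⟨max N₁ (max 1 ⌈X₀⌉₊), fun N hN a b ha hb hb2 => ?_⟩
  have hN1 : N₁ ≤ N := (le_max_left _ _).trans hN
  have hN2 : 1 ≤ N := ((le_max_left _ _).trans (le_max_right _ _)).trans hN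
  have hN3 : X₀ ≤ N := by
    have h1 : ⌈X₀⌉₊ ≤ N := ((le_max_right _ _).trans (le_max_right _ _)).trans hN
    exact (Nat.le_ceil X₀).trans (by exact_mod_cast h1)
  have hN2' : (1 : ℝ) ≤ N := by exact_mod_cast hN2
  have hN4 : (N : ℝ) ≤ (N : ℝ) ^ M := by
    calc (N : ℝ) = (N : ℝ) ^ (1 : ℝ) := (Real.rpow_one _).symm
      _ ≤ _ := Real.rpow_le_rpow_of_exponent_le hN2' hM
  rcases hX₀ N hN3 with h1 | h1
  · exfalso
    have h2 := h1 N le_rfl hN4 1 one_ne_zero (by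
      rw [Int.cast_one, abs_one]
      exact Real.one_le_rpow hN2' hη)
    rw [Int.cast_one, one_mul, hr] at h2
    apply hN₁ N hN1
    have h3 : ((r.num : ℝ)) / ((r.den : ℕ) : ℝ) = (r : ℝ) := by
      exact_mod_cast r.num_div_den
    rw [h3]
    exact h2
  · exact h1 N le_rfl hN4 a b ha hb hb2

end Pool.Agent.Results.MP_631c0d_nt.LineOfForms
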